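import Mathlib
import Pool.Agent.Y16.AF.StmA

/-! A trigonometric sum. -/

set_option autoImplicit false

namespace Pool.Agent.Y48.AF

open Pool.Agent.Y16.AF

/-- the sum over the roots of unity -/
theorem root_sum {L : ℕ} {ζ : ℂ} (hζ : IsPrimitiveRoot ζ L) (n : ℕ) :
    ∑ m ∈ Finset.range L, (ζ ^ m) ^ n = if L ∣ n then (L : ℂ) else 0 := by
  have h1 : ∀ m, (ζ ^ m) ^ n = (ζ ^ n) ^ m := fun m => by rw [← pow_mul, ← pow_mul, mul_comm]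
  simp only [h1]
  split_ifs with h
  · rw [(hζ.pow_eq_one_iff_dvd n).2 h]
    simp
  · have h2 : ζ ^ n ≠ 1 := fun h3 => h ((hζ.pow_eq_one_iff_dvd n).1 h3)
    have h3 : (ζ ^ n) ^ L = 1 := by rw [← pow_mul, mul_comm, pow_mul, hζ.pow_eq_one, one_pow]
    have h4 := geom_sum_eq h2 L
    rw [h4, h3, sub_self, zero_div]

theorem geo_sum {L : ℕ} (hL : 1 ≤ L) {ζ : ℂ} (hζ : IsPrimitiveRoot ζ L) {q : ℝ} (hq0 : 0 < q) (hq1 : q < 1) :
    ∑ m ∈ Finset.range L, ((q : ℂ) * ζ ^ m) / (1 - (q : ℂ) * ζ ^ m) ^ 2 =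
      (L : ℂ) ^ 2 * ((q : ℂ) ^ L / (1 - (q : ℂ) ^ L) ^ 2) := by
  have hnz : ‖ζ‖ = 1 := Complex.norm_eq_one_of_pow_eq_one hζ.pow_eq_one (by omega)
  have hn : ∀ m, ‖(q : ℂ) * ζ ^ m‖ < 1 := by
    intro m
    rw [norm_mul, norm_pow, hnz, one_pow, mul_one, Complex.norm_real, Real.norm_of_nonneg hq0.le]
    exact hq1
  have hnQ : ‖(q : ℂ) ^ L‖ < 1 := by
    rw [norm_pow, Complex.norm_real, Real.norm_of_nonneg hq0.le]
    exact pow_lt_one₀ hq0.le hq1 (by omega)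
  have hs : ∀ m ∈ Finset.range L, Summable fun n : ℕ => (n : ℂ) * ((q : ℂ) * ζ ^ m) ^ n := by
    intro m _
    exact (hasSum_coe_mul_geometric_of_norm_lt_one (hn m)).summable
  have h1 : ∑ m ∈ Finset.range L, ((q : ℂ) * ζ ^ m) / (1 - (q : ℂ) * ζ ^ m) ^ 2 =
      ∑' n : ℕ, ∑ m ∈ Finset.range L, (n : ℂ) * ((q : ℂ) * ζ ^ m) ^ n := by
    rw [Summable.tsum_finsetSum hs]
    refine Finset.sum_congr rfl fun m _ => ?_
    rw [tsum_coe_mul_geometric_of_norm_lt_one (hn m)]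
  have h2 : ∀ n : ℕ, ∑ m ∈ Finset.range L, (n : ℂ) * ((q : ℂ) * ζ ^ m) ^ n =
      if L ∣ n then (n : ℂ) * (q : ℂ) ^ n * L else 0 := by
    intro n
    have h3 : ∀ m, (n : ℂ) * ((q : ℂ) * ζ ^ m) ^ n = (n : ℂ) * (q : ℂ) ^ n * (ζ ^ m) ^ n := by
      intro m
      rw [mul_pow]
      ring
    simp only [h3]
    rw [← Finset.mul_sum, root_sum hζ n]
    split_ifs
    · rfl
    · rw [mul_zero]
  have hinj : Function.Injective fun k : ℕ => L * k := fun a b h => Nat.eq_of_mul_eq_mul_left (by omega) h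
  have h4 : ∑' n : ℕ, (if L ∣ n then (n : ℂ) * (q : ℂ) ^ n * L else 0) =
      ∑' k : ℕ, (L : ℂ) ^ 2 * ((k : ℂ) * ((q : ℂ) ^ L) ^ k) := by
    rw [← hinj.tsum_eq (f := fun n : ℕ => if L ∣ n then (n : ℂ) * (q : ℂ) ^ n * L else 0)]
    · refine tsum_congr fun k => ?_
      rw [if_pos (dvd_mul_right L k), pow_mul]
      push_cast
      ring
    · intro n hn
      rw [Function.mem_support] at hn
      by_cases h : L ∣ n
      · obtain ⟨k, rfl⟩ := h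
        exact ⟨k, rfl⟩
      · rw [if_neg h] at hn
        exact absurd rfl hn
  rw [h1]
  simp only [h2]
  rw [h4, tsum_mul_left, tsum_coe_mul_geometric_of_norm_lt_one hnQ]

theorem one_sub_ne {q : ℝ} (hq0 : 0 < q) (hq1 : q < 1) {E : ℂ} (hE : ‖E‖ = 1) : 1 - (q : ℂ) * E ≠ 0 := by
  intro h
  have h1 : (q : ℂ) * E = 1 := (sub_eq_zero.1 h).symm
  have h2 : ‖(q : ℂ) * E‖ = 1 := by rw [h1, norm_one]
  rw [norm_mul, hE, mul_one, Complex.norm_real, Real.norm_of_nonneg hq0.le] at h2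
  exact hq1.ne h2

/-- one term -/
theorem term_eq {q : ℝ} (hq0 : 0 < q) (hq1 : q < 1) (t : ℝ) (E : ℂ) (hE : E = Complex.exp (t * Complex.I)) :
    (((2 * Real.cos t / (q + q⁻¹ - 2 * Real.cos t) -
      4 * Real.sin t ^ 2 / (q + q⁻¹ - 2 * Real.cos t) ^ 2 : ℝ)) : ℂ) =
      ((q : ℂ) * E) / (1 - (q : ℂ) * E) ^ 2 + ((q : ℂ) * E⁻¹) / (1 - (q : ℂ) * E⁻¹) ^ 2 := by
  have hnE : ‖E‖ = 1 := by
    rw [hE]
    exact Complex.norm_exp_ofReal_mul_I t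
  have hE0 : E ≠ 0 := by
    intro h
    rw [h, norm_zero] at hnE
    exact zero_ne_one hnE
  have hnE' : ‖E⁻¹‖ = 1 := by rw [norm_inv, hnE, inv_one]
  have hq : (q : ℂ) ≠ 0 := by exact_mod_cast hq0.ne'
  have n1 := one_sub_ne hq0 hq1 hnE
  have n2 := one_sub_ne hq0 hq1 hnE'
  have hcos : ((Real.cos t : ℝ) : ℂ) = (E + E⁻¹) / 2 := by
    rw [Complex.ofReal_cos, Complex.cos, hE, ← Complex.exp_neg, neg_mul]
  have hsin : ((Real.sin t ^ 2 : ℝ) : ℂ) = 1 - ((E + E⁻¹) / 2) ^ 2 := by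
    rw [← hcos, Real.sin_sq]
    push_cast
    ring
  obtain ⟨F, hF⟩ : ∃ F : ℂ, F = E⁻¹ := ⟨_, rfl⟩
  have hEF : E * F = 1 := by rw [hF, mul_inv_cancel₀ hE0]
  have e1 : (((2 * Real.cos t / (q + q⁻¹ - 2 * Real.cos t) -
      4 * Real.sin t ^ 2 / (q + q⁻¹ - 2 * Real.cos t) ^ 2 : ℝ)) : ℂ) =
      2 * ((Real.cos t : ℝ) : ℂ) / ((q : ℂ) + (q : ℂ)⁻¹ - 2 * ((Real.cos t : ℝ) : ℂ)) -
      4 * ((Real.sin t ^ 2 : ℝ) : ℂ) / ((q : ℂ) + (q : ℂ)⁻¹ - 2 * ((Real.cos t : ℝ) : ℂ)) ^ 2 := by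
    push_cast
    ring
  rw [e1, hsin, hcos]
  rw [← hF] at n2 ⊢
  obtain ⟨P, hP⟩ : ∃ P : ℂ, P = (1 - (q : ℂ) * E) * (1 - (q : ℂ) * F) := ⟨_, rfl⟩
  have hP0 : P ≠ 0 := by rw [hP]; exact mul_ne_zero n1 n2
  have hden : (q : ℂ) + (q : ℂ)⁻¹ - 2 * ((E + F) / 2) = P / q := by
    rw [hP]
    field_simp
    linear_combination -((q : ℂ) ^ 2) * hEF
  rw [hden]
  have hL' : 2 * ((E + F) / 2) / (P / q) - 4 * (1 - ((E + F) / 2) ^ 2) / (P / q) ^ 2 =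
      ((q : ℂ) * (E + F) * P - 4 * (q : ℂ) ^ 2 + (q : ℂ) ^ 2 * (E + F) ^ 2) / P ^ 2 := by
    field_simp
    ring
  have hR' : ((q : ℂ) * E) / (1 - (q : ℂ) * E) ^ 2 + ((q : ℂ) * F) / (1 - (q : ℂ) * F) ^ 2 =
      ((q : ℂ) * E * (1 - (q : ℂ) * F) ^ 2 + (q : ℂ) * F * (1 - (q : ℂ) * E) ^ 2) / P ^ 2 := by
    rw [hP, div_add_div _ _ (pow_ne_zero 2 n1) (pow_ne_zero 2 n2), mul_pow]
    congr 1
    ring
  rw [hL', hR']
  congr 1
  rw [hP]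
  linear_combination 4 * (q : ℂ) ^ 2 * hEF

theorem af_trig : S_TRIG := by
  intro L hL a η ha hη hae
  obtain ⟨q, hq⟩ : ∃ q : ℝ, q = Real.exp (-η) := ⟨_, rfl⟩
  have hq0 : 0 < q := by rw [hq]; exact Real.exp_pos _
  have hq1 : q < 1 := by
    rw [hq, ← Real.exp_zero]
    exact Real.exp_lt_exp.2 (by linarith)
  have hqi : q⁻¹ = Real.exp η := by rw [hq, ← Real.exp_neg, neg_neg]
  have hA : a + 2 = q + q⁻¹ := by
    rw [← hae, Real.cosh_eq, hqi, hq]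
    ring
  have hLr : (0 : ℝ) < L := by exact_mod_cast hL
  have hQ : Real.cosh (L * η) - 1 = (1 - q ^ L) ^ 2 / (2 * q ^ L) := by
    have h1 : q ^ L = Real.exp (-(L * η)) := by
      rw [hq, ← Real.exp_nat_mul]
      congr 1
      ring
    have h2 : Real.exp (L * η) = (q ^ L)⁻¹ := by
      rw [h1, ← Real.exp_neg, neg_neg]
    have h3 : q ^ L ≠ 0 := (pow_pos hq0 L).ne'
    rw [Real.cosh_eq, ← h1, h2]
    field_simp
    ring
  have hQ1 : q ^ L < 1 := pow_lt_one₀ hq0.le hq1 (by omega)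
  obtain ⟨ζ, hζ⟩ : ∃ ζ : ℂ, ζ = Complex.exp (2 * Real.pi * Complex.I / L) := ⟨_, rfl⟩
  have hprim : IsPrimitiveRoot ζ L := by
    rw [hζ]
    exact Complex.isPrimitiveRoot_exp L (by omega)
  have hE : ∀ m : ℕ, ζ ^ m = Complex.exp (((2 * Real.pi * m / L : ℝ) : ℂ) * Complex.I) := by
    intro m
    rw [hζ, ← Complex.exp_nat_mul]
    congr 1
    push_cast
    ring
  have hmain : ((∑ m ∈ Finset.range L, (2 * Real.cos (2 * Real.pi * m / L) /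
        (a + 2 - 2 * Real.cos (2 * Real.pi * m / L)) -
      4 * Real.sin (2 * Real.pi * m / L) ^ 2 /
        (a + 2 - 2 * Real.cos (2 * Real.pi * m / L)) ^ 2) : ℝ) : ℂ) =
      (L : ℂ) ^ 2 * ((q : ℂ) ^ L / (1 - (q : ℂ) ^ L) ^ 2) + (L : ℂ) ^ 2 * ((q : ℂ) ^ L / (1 - (q : ℂ) ^ L) ^ 2) := by
    rw [Complex.ofReal_sum, hA]
    rw [Finset.sum_congr rfl fun (m : ℕ) _ => term_eq hq0 hq1 (2 * Real.pi * (m : ℝ) / L) (ζ ^ m) (hE m)]
    rw [Finset.sum_add_distrib, geo_sum hL hprim hq0 hq1]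
    congr 1
    have hprim' : IsPrimitiveRoot ζ⁻¹ L := hprim.inv
    rw [← geo_sum hL hprim' hq0 hq1]
    refine Finset.sum_congr rfl fun m _ => ?_
    rw [inv_pow]
  have hfin : (∑ m ∈ Finset.range L, (2 * Real.cos (2 * Real.pi * m / L) /
        (a + 2 - 2 * Real.cos (2 * Real.pi * m / L)) -
      4 * Real.sin (2 * Real.pi * m / L) ^ 2 /
        (a + 2 - 2 * Real.cos (2 * Real.pi * m / L)) ^ 2) : ℝ) =
      (L : ℝ) ^ 2 * (q ^ L / (1 - q ^ L) ^ 2) + (L : ℝ) ^ 2 * (q ^ L / (1 - q ^ L) ^ 2) := by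
    apply Complex.ofReal_injective
    rw [hmain]
    push_cast
    ring
  rw [hfin, hQ]
  have h3 : q ^ L ≠ 0 := (pow_pos hq0 L).ne'
  have h4 : 1 - q ^ L ≠ 0 := by linarith
  field_simp
  ring

end Pool.Agent.Y48.AF
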