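import Mathlib
import Pool.Agent.Y16.AF.StmA

/-! The cancellation due to gauge invariance. -/

set_option autoImplicit false

namespace Pool.Agent.Y48.AF

open Pool.Agent.Y16.AF

/-! ### weights -/

noncomputable def wt (n : ℤ) : ℝ := (1 + (n : ℝ) ^ 2) ^ (-(2 / 3 : ℝ))

noncomputable def KK : ℝ := ∑' n : ℤ, wt n

theorem wt_pos (n : ℤ) : 0 < wt n := by
  unfold wt
  positivity

theorem wt_zero : wt 0 = 1 := by
  unfold wt
  norm_num

theorem wt_summable : Summable wt := by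
  have h1 : Summable fun n : ℤ => |(n : ℝ)| ^ (-(4 / 3 : ℝ)) := Real.summable_abs_int_rpow (by norm_num)
  have h2 : Summable fun n : ℤ => if n = 0 then (1 : ℝ) else 0 := by
    refine summable_of_ne_finset_zero (s := {0}) fun n hn => ?_
    rw [if_neg]
    simpa using hn
  refine Summable.of_nonneg_of_le (fun n => (wt_pos n).le) (fun n => ?_) (h1.add h2)
  by_cases hn : n = 0
  · subst hn
    rw [wt_zero, if_pos rfl]
    have : 0 ≤ |((0 : ℤ) : ℝ)| ^ (-(4 / 3 : ℝ)) := by positivity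
    linarith
  · rw [if_neg hn, add_zero]
    have hn' : (0 : ℝ) < |(n : ℝ)| := abs_pos.2 (by exact_mod_cast hn)
    have h3 : |(n : ℝ)| ^ (-(4 / 3 : ℝ)) = (|(n : ℝ)| ^ 2) ^ (-(2 / 3 : ℝ)) := by
      rw [← Real.rpow_natCast, ← Real.rpow_mul hn'.le]
      norm_num
    rw [h3, sq_abs]
    unfold wt
    refine Real.rpow_le_rpow_of_nonpos ?_ ?_ (by norm_num)
    · have : (n : ℝ) ≠ 0 := by exact_mod_cast hn
      positivity
    · linarith

theorem one_le_KK : 1 ≤ KK := by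
  have h := wt_summable.le_tsum 0 (fun n _ => (wt_pos n).le)
  rw [wt_zero] at h
  exact h

theorem sum_inj_le {ι : Type} [DecidableEq ι] (s : Finset ι) (g : ι → ℤ) (hg : Function.Injective g) :
    ∑ i ∈ s, wt (g i) ≤ KK := by
  have h1 : ∑ i ∈ s, wt (g i) = ∑ n ∈ s.map ⟨g, hg⟩, wt n := by
    rw [Finset.sum_map]
    rfl
  rw [h1]
  exact wt_summable.sum_le_tsum _ fun n _ => (wt_pos n).le

theorem prod_wt {a b c : ℤ} (h : 1 ≤ (a : ℝ) ^ 2 + (b : ℝ) ^ 2 + (c : ℝ) ^ 2) :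
    1 / ((a : ℝ) ^ 2 + (b : ℝ) ^ 2 + (c : ℝ) ^ 2) ^ 2 ≤ 4 * (wt a * wt b * wt c) := by
  obtain ⟨S, hS⟩ : ∃ S : ℝ, S = (a : ℝ) ^ 2 + (b : ℝ) ^ 2 + (c : ℝ) ^ 2 := ⟨_, rfl⟩
  rw [← hS] at h ⊢
  have ha : 1 + (a : ℝ) ^ 2 ≤ 2 * S := by nlinarith [sq_nonneg (b : ℝ), sq_nonneg (c : ℝ), sq_nonneg (a : ℝ)]
  have hb : 1 + (b : ℝ) ^ 2 ≤ 2 * S := by nlinarith [sq_nonneg (b : ℝ), sq_nonneg (c : ℝ), sq_nonneg (a : ℝ)]
  have hc : 1 + (c : ℝ) ^ 2 ≤ 2 * S := by nlinarith [sq_nonneg (b : ℝ), sq_nonneg (c : ℝ), sq_nonneg (a : ℝ)]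
  have hS0 : 0 < S := by linarith
  have h1 : (1 + (a : ℝ) ^ 2) * (1 + (b : ℝ) ^ 2) * (1 + (c : ℝ) ^ 2) ≤ (2 * S) ^ 3 := by
    have : (2 * S) ^ 3 = 2 * S * (2 * S) * (2 * S) := by ring
    rw [this]
    gcongr
  have h2 : wt a * wt b * wt c = ((1 + (a : ℝ) ^ 2) * (1 + (b : ℝ) ^ 2) * (1 + (c : ℝ) ^ 2)) ^ (-(2 / 3 : ℝ)) := by
    unfold wt
    rw [← Real.mul_rpow (by positivity) (by positivity), ← Real.mul_rpow (by positivity) (by positivity)]
  have h3 : ((2 * S) ^ 3) ^ (-(2 / 3 : ℝ)) ≤ wt a * wt b * wt c := by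
    rw [h2]
    exact Real.rpow_le_rpow_of_nonpos (by positivity) h1 (by norm_num)
  have h4 : ((2 * S) ^ 3) ^ (-(2 / 3 : ℝ)) = 1 / (4 * S ^ 2) := by
    rw [← Real.rpow_natCast, ← Real.rpow_mul (by positivity)]
    have : (((3 : ℕ) : ℝ) * -(2 / 3)) = -((2 : ℕ) : ℝ) := by norm_num
    rw [this, Real.rpow_neg (by positivity), Real.rpow_natCast, one_div]
    congr 1
    ring
  rw [h4] at h3
  have h5 : 1 / S ^ 2 = 4 * (1 / (4 * S ^ 2)) := by
    field_simp
  rw [h5]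
  linarith

/-! ### angles -/

noncomputable def an {L : ℕ} (x : ZMod L) : ℝ := 2 * Real.pi * (x.val : ℝ) / L

noncomputable def be {L : ℕ} (x : ZMod L) : ℝ := 2 - 2 * Real.cos (an x)

noncomputable def mu (L j : ℕ) : ℝ := 2 - 2 * Real.cos (Real.pi * j / L)

noncomputable def ph (x A : ℝ) : ℝ :=
  2 * Real.cos x / (A + 2 - 2 * Real.cos x) - 4 * Real.sin x ^ 2 / (A + 2 - 2 * Real.cos x) ^ 2

theorem half_sq (θ : ℝ) : 2 - 2 * Real.cos (2 * θ) = 4 * Real.sin θ ^ 2 := by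
  rw [Real.cos_two_mul, Real.cos_sq']
  ring

theorem sin_sq_ge {θ : ℝ} (h : |θ| ≤ Real.pi / 2) : (2 / Real.pi * θ) ^ 2 ≤ Real.sin θ ^ 2 := by
  have h1 : ∀ θ : ℝ, 0 ≤ θ → θ ≤ Real.pi / 2 → (2 / Real.pi * θ) ^ 2 ≤ Real.sin θ ^ 2 := by
    intro θ h0 h1
    have h2 := Real.mul_le_sin h0 h1
    have h3 : 0 ≤ 2 / Real.pi * θ := by positivity
    exact pow_le_pow_left₀ h3 h2 2
  rcases le_total 0 θ with h0 | h0
  · rw [abs_of_nonneg h0] at h
    exact h1 θ h0 h
  · rw [abs_of_nonpos h0] at h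
    have := h1 (-θ) (by linarith) h
    rw [Real.sin_neg] at this
    have e1 : (2 / Real.pi * -θ) ^ 2 = (2 / Real.pi * θ) ^ 2 := by ring
    have e2 : (-Real.sin θ) ^ 2 = Real.sin θ ^ 2 := by ring
    rwa [e1, e2] at this

theorem mu_ge {L j : ℕ} (hL : 1 ≤ L) (hj : j ≤ L) : 4 * (j : ℝ) ^ 2 ≤ (L : ℝ) ^ 2 * mu L j := by
  have hL' : (0 : ℝ) < L := by exact_mod_cast hL
  have hj' : (j : ℝ) ≤ L := by exact_mod_cast hj
  have hp := Real.pi_pos
  unfold mu
  have e : Real.pi * j / L = 2 * (Real.pi * j / (2 * L)) := by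
    field_simp
  rw [e, half_sq]
  have h := sin_sq_ge (θ := Real.pi * j / (2 * L)) (by
    rw [abs_of_nonneg (by positivity), div_le_div_iff₀ (by positivity) (by norm_num)]
    nlinarith)
  have e2 : (2 / Real.pi * (Real.pi * j / (2 * L))) ^ 2 = (j : ℝ) ^ 2 / (L : ℝ) ^ 2 := by
    field_simp
  rw [e2, div_le_iff₀ (by positivity)] at h
  linarith

theorem mu_nonneg (L j : ℕ) : 0 ≤ mu L j := by
  unfold mu
  linarith [Real.cos_le_one (Real.pi * j / L)]

theorem mu_le (L j : ℕ) : mu L j ≤ 4 := by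
  unfold mu
  linarith [Real.neg_one_le_cos (Real.pi * j / L)]

theorem be_nonneg {L : ℕ} (x : ZMod L) : 0 ≤ be x := by
  unfold be
  linarith [Real.cos_le_one (an x)]

theorem be_le {L : ℕ} (x : ZMod L) : be x ≤ 4 := by
  unfold be
  linarith [Real.neg_one_le_cos (an x)]

theorem be_ge {L : ℕ} [NeZero L] (x : ZMod L) :
    16 * ((x.valMinAbs : ℤ) : ℝ) ^ 2 ≤ (L : ℝ) ^ 2 * be x := by
  have hL : 1 ≤ L := NeZero.one_le
  have hL' : (0 : ℝ) < L := by exact_mod_cast hL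
  have hp := Real.pi_pos
  obtain ⟨n, hn⟩ : ∃ n : ℤ, n = x.valMinAbs := ⟨_, rfl⟩
  have h1 : |(n : ℝ)| ≤ (L : ℝ) / 2 := by
    have h2 := ZMod.natAbs_valMinAbs_le x
    rw [← hn] at h2
    have h3 : ((n.natAbs : ℕ) : ℝ) ≤ ((L / 2 : ℕ) : ℝ) := by exact_mod_cast h2
    have h4 : ((L / 2 : ℕ) : ℝ) ≤ (L : ℝ) / 2 := Nat.cast_div_le
    have h5 : ((n.natAbs : ℕ) : ℝ) = |(n : ℝ)| := by
      rw [Nat.cast_natAbs, Int.cast_abs]
    linarith
  have h2 : Real.cos (an x) = Real.cos (2 * (Real.pi * n / L)) := by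
    unfold an
    have h3 := ZMod.valMinAbs_def_pos x
    rw [← hn] at h3
    split_ifs at h3 with h4
    · rw [h3]
      congr 1
      push_cast
      ring
    · have h5 : (x.val : ℝ) = (n : ℝ) + L := by
        have : (x.val : ℤ) = n + L := by omega
        exact_mod_cast this
      rw [h5]
      have e : 2 * Real.pi * ((n : ℝ) + L) / L = 2 * (Real.pi * n / L) + 2 * Real.pi := by
        field_simp
      rw [e, Real.cos_add_two_pi]
  unfold be
  rw [← hn, h2, half_sq]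
  have h := sin_sq_ge (θ := Real.pi * n / L) (by
    rw [abs_div, abs_mul, abs_of_pos hp, abs_of_pos hL', div_le_div_iff₀ hL' (by norm_num)]
    nlinarith)
  have e2 : (2 / Real.pi * (Real.pi * n / L)) ^ 2 = 4 * (n : ℝ) ^ 2 / (L : ℝ) ^ 2 := by
    field_simp
    ring
  rw [e2, div_le_iff₀ (by positivity)] at h
  linarith

/-! ### hyperbolic functions -/

theorem cosh_ge (x : ℝ) : 1 + x ^ 4 / 24 ≤ Real.cosh x := by
  have h := Real.hasSum_cosh x
  have h1 := sum_le_hasSum (Finset.range 3) (fun n _ => by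
    rw [pow_mul]
    positivity) h
  simp only [Finset.sum_range_succ, Finset.sum_range_zero] at h1
  norm_num [Nat.factorial] at h1
  nlinarith [sq_nonneg x]

theorem exists_eta {A : ℝ} (hA : 0 < A) : ∃ η : ℝ, 0 < η ∧ 2 * Real.cosh η - 2 = A := by
  refine ⟨2 * Real.arsinh (√A / 2), ?_, ?_⟩
  · have : 0 < Real.arsinh (√A / 2) := Real.arsinh_pos_iff.2 (by positivity)
    linarith
  · rw [Real.cosh_two_mul, Real.cosh_sq, Real.sinh_arsinh]
    have := Real.sq_sqrt hA.le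
    nlinarith

theorem cosh_lower {L : ℕ} (hL : 1 ≤ L) {A η : ℝ} (hA : 0 < A) (hA2 : A ≤ 12) (hη : 0 < η)
    (h : 2 * Real.cosh η - 2 = A) : ((L : ℝ) ^ 2 * A) ^ 2 / 4704 ≤ Real.cosh (L * η) - 1 := by
  obtain ⟨E, hE⟩ : ∃ E : ℝ, E = Real.exp (-η) := ⟨_, rfl⟩
  have hE0 : 0 < E := by rw [hE]; exact Real.exp_pos _
  have hEi : Real.exp η = E⁻¹ := by rw [hE, ← Real.exp_neg, neg_neg]
  have h1 : E + E⁻¹ - 2 = A := by
    rw [← h, Real.cosh_eq, hEi, hE]
    ring
  have h2 : 1 - E ≤ η := by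
    have := Real.add_one_le_exp (-η)
    rw [← hE] at this
    linarith
  have hE1 : E < 1 := by
    rw [hE, ← Real.exp_zero]
    exact Real.exp_lt_exp.2 (by linarith)
  have h3 : (1 - E) ^ 2 = A * E := by
    rw [← h1]
    field_simp
    ring
  have h4 : 1 / 14 ≤ E := by
    have h5 : E⁻¹ ≤ 14 := by linarith
    rw [inv_le_comm₀ hE0 (by norm_num)] at h5
    linarith
  have h5 : A / 14 ≤ η ^ 2 := by
    have h6 : (1 - E) ^ 2 ≤ η ^ 2 := pow_le_pow_left₀ (by linarith) h2 2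
    rw [h3] at h6
    nlinarith
  have h6 := cosh_ge (L * η)
  have h7 : ((L : ℝ) ^ 2 * A / 14) ^ 2 ≤ (L * η) ^ 4 := by
    have e : ((L : ℝ) * η) ^ 4 = ((L : ℝ) ^ 2 * η ^ 2) ^ 2 := by ring
    rw [e]
    refine pow_le_pow_left₀ (by positivity) ?_ 2
    have : (L : ℝ) ^ 2 * A / 14 = (L : ℝ) ^ 2 * (A / 14) := by ring
    rw [this]
    gcongr
  nlinarith

theorem zmod_sum {L : ℕ} [NeZero L] (f : ℕ → ℝ) : ∑ x : ZMod L, f x.val = ∑ m ∈ Finset.range L, f m := by
  rw [← Fin.sum_univ_eq_sum_range]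
  exact Fintype.sum_equiv (ZMod.finEquiv L).symm.toEquiv _ _ (fun x => by
    obtain ⟨L, rfl⟩ : ∃ L', L = L' + 1 := ⟨L - 1, (Nat.succ_pred_eq_of_ne_zero (NeZero.ne L)).symm⟩
    rfl)

/-- the sum over the first momentum -/
theorem trig_bound (hT : S_TRIG) {L : ℕ} [NeZero L] {A : ℝ} (hA : 0 < A) (hA2 : A ≤ 12) :
    0 ≤ ∑ x : ZMod L, ph (an x) A ∧
      ∑ x : ZMod L, ph (an x) A ≤ 4704 * (L : ℝ) ^ 2 / ((L : ℝ) ^ 2 * A) ^ 2 := by
  have hL : 1 ≤ L := NeZero.one_le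
  have hL' : (0 : ℝ) < L := by exact_mod_cast hL
  obtain ⟨η, hη, hηA⟩ := exists_eta hA
  have h1 := hT L hL A η hA hη hηA
  have h2 : ∑ x : ZMod L, ph (an x) A = (L : ℝ) ^ 2 / (Real.cosh (L * η) - 1) := by
    rw [← h1]
    exact zmod_sum (L := L) (fun m => ph (2 * Real.pi * m / L) A)
  have h3 := cosh_lower hL hA hA2 hη hηA
  have h4 : 0 < ((L : ℝ) ^ 2 * A) ^ 2 / 4704 := by positivity
  rw [h2]
  refine ⟨div_nonneg (by positivity) (by linarith), ?_⟩
  calc (L : ℝ) ^ 2 / (Real.cosh (L * η) - 1) ≤ (L : ℝ) ^ 2 / (((L : ℝ) ^ 2 * A) ^ 2 / 4704) :=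
        div_le_div_of_nonneg_left (by positivity) h4 h3
    _ = 4704 * (L : ℝ) ^ 2 / ((L : ℝ) ^ 2 * A) ^ 2 := by
        field_simp

theorem ph_zero (A : ℝ) : ph 0 A = 2 / A := by
  unfold ph
  rw [Real.cos_zero, Real.sin_zero]
  norm_num

theorem ph_A0 {x : ℝ} (hx : 2 - 2 * Real.cos x ≠ 0) : ph x 0 = -(2 / (2 - 2 * Real.cos x)) := by
  unfold ph
  have h1 : (0 : ℝ) + 2 - 2 * Real.cos x = 2 - 2 * Real.cos x := by ring
  rw [h1, Real.sin_sq]
  obtain ⟨D, hD⟩ : ∃ D : ℝ, D = 2 - 2 * Real.cos x := ⟨_, rfl⟩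
  have hc : Real.cos x = 1 - D / 2 := by rw [hD]; ring
  rw [← hD] at hx ⊢
  rw [hc]
  field_simp
  ring

theorem an_zero {L : ℕ} [NeZero L] : an (0 : ZMod L) = 0 := by
  unfold an
  rw [ZMod.val_zero]
  simp

theorem be_zero {L : ℕ} [NeZero L] : be (0 : ZMod L) = 0 := by
  unfold be
  rw [an_zero, Real.cos_zero]
  norm_num

theorem mu_zero (L : ℕ) : mu L 0 = 0 := by
  unfold mu
  simp

theorem inv_sq_le {n : ℤ} (hn : n ≠ 0) : 1 / (n : ℝ) ^ 2 ≤ 2 * wt n := by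
  have h1 : (1 : ℝ) ≤ (n : ℝ) ^ 2 := by
    have : (1 : ℤ) ≤ n ^ 2 := by
      have := sq_pos_of_ne_zero hn
      omega
    exact_mod_cast this
  have h2 : (1 + (n : ℝ) ^ 2)⁻¹ ≤ wt n := by
    unfold wt
    rw [← Real.rpow_neg_one]
    exact Real.rpow_le_rpow_of_exponent_le (by linarith) (by norm_num)
  have h3 : 1 / (n : ℝ) ^ 2 ≤ 2 * (1 + (n : ℝ) ^ 2)⁻¹ := by
    rw [← div_eq_mul_inv, div_le_div_iff₀ (by linarith) (by linarith)]
    linarith
  linarith

/-- the sum over the first momentum of the nonzero modes -/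
noncomputable def Is {L : ℕ} [NeZero L] (j : ℕ) (y z : ZMod L) : ℝ :=
  ∑ x : ZMod L, if x = 0 ∧ y = 0 ∧ z = 0 then 0 else ph (an x) (mu L j + be y + be z)

theorem Is_bound (hT : S_TRIG) {L : ℕ} [NeZero L] {j : ℕ} (hj : j < L) (y z : ZMod L) :
    |Is j y z| ≤ (1177 + KK) * (L : ℝ) ^ 2 * (wt j * wt y.valMinAbs * wt z.valMinAbs) := by
  have hL : 1 ≤ L := NeZero.one_le
  have hL' : (0 : ℝ) < L := by exact_mod_cast hL
  have hK := one_le_KK
  by_cases h0 : j = 0 ∧ y = 0 ∧ z = 0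
  · obtain ⟨rfl, rfl, rfl⟩ := h0
    have e1 : Is 0 (0 : ZMod L) 0 = ∑ x : ZMod L, if x = 0 then 0 else -(2 / be x) := by
      unfold Is
      refine Finset.sum_congr rfl fun x _ => ?_
      by_cases hx : x = 0
      · rw [if_pos ⟨hx, rfl, rfl⟩, if_pos hx]
      · rw [if_neg (fun h => hx h.1), if_neg hx, mu_zero, be_zero, add_zero, add_zero, ph_A0]
        · rfl
        · have h1 := be_ge x
          have h2 : x.valMinAbs ≠ 0 := fun h => hx ((ZMod.valMinAbs_eq_zero x).1 h)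
          have h3 : (0 : ℝ) < ((x.valMinAbs : ℤ) : ℝ) ^ 2 := by
            have : ((x.valMinAbs : ℤ) : ℝ) ≠ 0 := by exact_mod_cast h2
            positivity
          intro h4
          have h5 : be x = 0 := h4
          rw [h5] at h1
          linarith
    have e2 : |Is 0 (0 : ZMod L) 0| ≤ ∑ x : ZMod L, (L : ℝ) ^ 2 * wt x.valMinAbs := by
      rw [e1]
      refine (Finset.abs_sum_le_sum_abs _ _).trans (Finset.sum_le_sum fun x _ => ?_)
      by_cases hx : x = 0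
      · rw [if_pos hx, abs_zero]
        exact mul_nonneg (by positivity) (wt_pos _).le
      · rw [if_neg hx, abs_neg]
        have h2 : x.valMinAbs ≠ 0 := fun h => hx ((ZMod.valMinAbs_eq_zero x).1 h)
        have h3 : (0 : ℝ) < ((x.valMinAbs : ℤ) : ℝ) ^ 2 := by
          have : ((x.valMinAbs : ℤ) : ℝ) ≠ 0 := by exact_mod_cast h2
          positivity
        have h1 := be_ge x
        have hb : 0 < be x := by
          by_contra hcon
          push Not at hcon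
          nlinarith [sq_nonneg (L : ℝ)]
        rw [abs_of_nonneg (by positivity)]
        have h4 := inv_sq_le h2
        have h5 : 2 / be x ≤ (L : ℝ) ^ 2 / 8 * (1 / ((x.valMinAbs : ℤ) : ℝ) ^ 2) := by
          rw [mul_one_div, div_le_div_iff₀ hb h3]
          linarith
        have h6 : (L : ℝ) ^ 2 / 8 * (1 / ((x.valMinAbs : ℤ) : ℝ) ^ 2) ≤ (L : ℝ) ^ 2 / 8 * (2 * wt x.valMinAbs) := by
          gcongr
        have h7 : (L : ℝ) ^ 2 / 8 * (2 * wt x.valMinAbs) ≤ (L : ℝ) ^ 2 * wt x.valMinAbs := by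
          have := mul_nonneg (sq_nonneg (L : ℝ)) (wt_pos x.valMinAbs).le
          linarith
        linarith
    rw [← Finset.mul_sum] at e2
    have e3 := sum_inj_le (Finset.univ : Finset (ZMod L)) (fun x => x.valMinAbs) ZMod.injective_valMinAbs
    have e4 : |Is 0 (0 : ZMod L) 0| ≤ (L : ℝ) ^ 2 * KK :=
      e2.trans (mul_le_mul_of_nonneg_left e3 (by positivity))
    refine e4.trans ?_
    rw [ZMod.valMinAbs_zero]
    push_cast
    rw [wt_zero, mul_one, mul_one, mul_one]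
    nlinarith [sq_nonneg (L : ℝ)]
  · obtain ⟨A, hA⟩ : ∃ A : ℝ, A = mu L j + be y + be z := ⟨_, rfl⟩
    obtain ⟨S, hS⟩ : ∃ S : ℝ, S = ((j : ℤ) : ℝ) ^ 2 + ((y.valMinAbs : ℤ) : ℝ) ^ 2 +
      ((z.valMinAbs : ℤ) : ℝ) ^ 2 := ⟨_, rfl⟩
    have hS1 : 1 ≤ S := by
      rw [hS]
      have h1 : (1 : ℤ) ≤ (j : ℤ) ^ 2 + y.valMinAbs ^ 2 + z.valMinAbs ^ 2 := by
        by_contra hcon
        push Not at hcon
        apply h0
        have a1 := sq_nonneg (j : ℤ)
        have a2 := sq_nonneg y.valMinAbs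
        have a3 := sq_nonneg z.valMinAbs
        refine ⟨?_, ?_, ?_⟩
        · have : (j : ℤ) ^ 2 = 0 := by omega
          have := pow_eq_zero_iff (two_ne_zero) |>.1 this
          exact_mod_cast this
        · have : y.valMinAbs ^ 2 = 0 := by omega
          have := pow_eq_zero_iff (two_ne_zero) |>.1 this
          exact (ZMod.valMinAbs_eq_zero y).1 this
        · have : z.valMinAbs ^ 2 = 0 := by omega
          have := pow_eq_zero_iff (two_ne_zero) |>.1 this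
          exact (ZMod.valMinAbs_eq_zero z).1 this
      exact_mod_cast h1
    have hLA : 4 * S ≤ (L : ℝ) ^ 2 * A := by
      have h1 := mu_ge hL hj.le
      have h2 := be_ge y
      have h3 := be_ge z
      rw [hS, hA]
      push_cast
      nlinarith [sq_nonneg ((y.valMinAbs : ℤ) : ℝ), sq_nonneg ((z.valMinAbs : ℤ) : ℝ)]
    have hA0 : 0 < A := by
      by_contra hcon
      push Not at hcon
      nlinarith [sq_nonneg (L : ℝ)]
    have hA2 : A ≤ 12 := by
      rw [hA]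
      linarith [mu_le L j, be_le y, be_le z]
    obtain ⟨hb1, hb2⟩ := trig_bound hT (L := L) hA0 hA2
    have hb3 : ∑ x : ZMod L, ph (an x) A ≤ 1176 * (L : ℝ) ^ 2 * (wt j * wt y.valMinAbs * wt z.valMinAbs) := by
      have h1 := prod_wt (a := (j : ℤ)) (b := y.valMinAbs) (c := z.valMinAbs) (by rw [← hS]; exact hS1)
      rw [← hS] at h1
      have h2 : 4704 * (L : ℝ) ^ 2 / ((L : ℝ) ^ 2 * A) ^ 2 ≤ 4704 * (L : ℝ) ^ 2 / (4 * S) ^ 2 := by
        refine div_le_div_of_nonneg_left (by positivity) (by positivity) ?_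
        exact pow_le_pow_left₀ (by positivity) hLA 2
      have h3 : 4704 * (L : ℝ) ^ 2 / (4 * S) ^ 2 = 294 * (L : ℝ) ^ 2 * (1 / S ^ 2) := by
        field_simp
        ring
      have h4 : 294 * (L : ℝ) ^ 2 * (1 / S ^ 2) ≤ 294 * (L : ℝ) ^ 2 * (4 * (wt j * wt y.valMinAbs * wt z.valMinAbs)) := by
        gcongr
      linarith
    have hw : 0 < wt j * wt y.valMinAbs * wt z.valMinAbs :=
      mul_pos (mul_pos (wt_pos _) (wt_pos _)) (wt_pos _)
    have hb4 : |∑ x : ZMod L, ph (an x) A| ≤ 1176 * (L : ℝ) ^ 2 * (wt j * wt y.valMinAbs * wt z.valMinAbs) := by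
      rw [abs_of_nonneg hb1]
      exact hb3
    by_cases h1 : y = 0 ∧ z = 0
    · have hj0 : j ≠ 0 := fun h => h0 ⟨h, h1⟩
      obtain ⟨rfl, rfl⟩ := h1
      have e1 : Is j (0 : ZMod L) 0 = (∑ x : ZMod L, ph (an x) A) - 2 / A := by
        have hz : ph (an (0 : ZMod L)) A = 2 / A := by rw [an_zero, ph_zero]
        unfold Is
        rw [← hA, ← hz, eq_sub_iff_add_eq]
        have e2 : ∀ x : ZMod L, (if x = 0 ∧ (0 : ZMod L) = 0 ∧ (0 : ZMod L) = 0 then 0 else ph (an x) A) =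
            ph (an x) A - if x = 0 then ph (an x) A else 0 := by
          intro x
          by_cases hx : x = 0
          · rw [if_pos ⟨hx, rfl, rfl⟩, if_pos hx, sub_self]
          · rw [if_neg (fun h => hx h.1), if_neg hx, sub_zero]
        rw [Finset.sum_congr rfl fun x _ => e2 x]
        rw [Finset.sum_sub_distrib, Finset.sum_ite_eq' Finset.univ (0 : ZMod L) (fun x => ph (an x) A),
          if_pos (Finset.mem_univ _)]
        ring
      have hAj : 4 * (j : ℝ) ^ 2 ≤ (L : ℝ) ^ 2 * A := by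
        have := mu_ge hL hj.le
        rw [hA, be_zero, add_zero, add_zero]
        exact this
      have hjp : (0 : ℝ) < (j : ℝ) ^ 2 := by
        have : (j : ℝ) ≠ 0 := by exact_mod_cast hj0
        positivity
      have e3 : 2 / A ≤ (L : ℝ) ^ 2 * (wt j * wt (0 : ZMod L).valMinAbs * wt (0 : ZMod L).valMinAbs) := by
        rw [ZMod.valMinAbs_zero, wt_zero, mul_one, mul_one]
        have h4 := inv_sq_le (n := (j : ℤ)) (by exact_mod_cast hj0)
        have h5 : 2 / A ≤ (L : ℝ) ^ 2 / 2 * (1 / (((j : ℤ) : ℝ)) ^ 2) := by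
          push_cast
          rw [mul_one_div, div_le_div_iff₀ hA0 hjp]
          linarith
        have h6 : (L : ℝ) ^ 2 / 2 * (1 / (((j : ℤ) : ℝ)) ^ 2) ≤ (L : ℝ) ^ 2 / 2 * (2 * wt j) := by
          gcongr
        linarith
      rw [e1]
      have e4 : |2 / A| = 2 / A := abs_of_nonneg (by positivity)
      have e5 := abs_sub (∑ x : ZMod L, ph (an x) A) (2 / A)
      rw [e4] at e5
      have e6 : 0 ≤ KK * (L : ℝ) ^ 2 * (wt j * wt (0 : ZMod L).valMinAbs * wt (0 : ZMod L).valMinAbs) :=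
        mul_nonneg (mul_nonneg (by linarith) (by positivity)) hw.le
      nlinarith
    · have e1 : Is j y z = ∑ x : ZMod L, ph (an x) A := by
        unfold Is
        refine Finset.sum_congr rfl fun x _ => ?_
        rw [if_neg (fun h => h1 h.2), hA]
      rw [e1]
      have e6 : 0 ≤ (1 + KK) * (L : ℝ) ^ 2 * (wt j * wt y.valMinAbs * wt z.valMinAbs) :=
        mul_nonneg (mul_nonneg (by linarith) (by positivity)) hw.le
      nlinarith

/-- three momenta -/
def e3 (L : ℕ) : ZMod L × ZMod L × ZMod L ≃ Sp L where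
  toFun p := ![p.1, p.2.1, p.2.2]
  invFun k := (k 0, k 1, k 2)
  left_inv p := rfl
  right_inv k := by
    funext i
    fin_cases i <;> rfl

theorem total_bound (hT : S_TRIG) {L : ℕ} [NeZero L] (v : ℕ → ℝ) (hv0 : ∀ j, 0 ≤ v j) (hv : ∀ j, v j ≤ 2 / L) :
    |∑ k ∈ Finset.univ.filter (fun k : Sp L => k ≠ 0), ∑ j ∈ Finset.range L,
      v j * ph (an (k 0)) (mu L j + be (k 1) + be (k 2))| ≤ 2 * (1177 + KK) * KK ^ 3 * L := by
  classical
  have hL : 1 ≤ L := NeZero.one_le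
  have hL' : (0 : ℝ) < L := by exact_mod_cast hL
  have hK := one_le_KK
  have e1 : ∑ k ∈ Finset.univ.filter (fun k : Sp L => k ≠ 0), ∑ j ∈ Finset.range L,
      v j * ph (an (k 0)) (mu L j + be (k 1) + be (k 2)) =
      ∑ j ∈ Finset.range L, v j * ∑ y : ZMod L, ∑ z : ZMod L, Is j y z := by
    rw [Finset.sum_filter, ← (e3 L).sum_comp, Fintype.sum_prod_type]
    simp only [Fintype.sum_prod_type]
    have e2 : ∀ x y z : ZMod L, (if (e3 L (x, y, z)) ≠ 0 then ∑ j ∈ Finset.range L,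
        v j * ph (an (e3 L (x, y, z) 0)) (mu L j + be (e3 L (x, y, z) 1) + be (e3 L (x, y, z) 2)) else 0) =
        ∑ j ∈ Finset.range L, v j * (if x = 0 ∧ y = 0 ∧ z = 0 then 0 else
          ph (an x) (mu L j + be y + be z)) := by
      intro x y z
      have e3' : e3 L (x, y, z) = 0 ↔ x = 0 ∧ y = 0 ∧ z = 0 := by
        constructor
        · intro h
          exact ⟨congrFun h 0, congrFun h 1, congrFun h 2⟩
        · rintro ⟨rfl, rfl, rfl⟩
          funext i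
          fin_cases i <;> rfl
      by_cases h : x = 0 ∧ y = 0 ∧ z = 0
      · rw [if_neg (fun h' => h' (e3'.2 h))]
        simp only [if_pos h, mul_zero, Finset.sum_const_zero]
      · rw [if_pos (fun h' => h (e3'.1 h'))]
        simp only [if_neg h]
        rfl
    simp only [e2]
    simp only [Is, Finset.mul_sum]
    rw [Finset.sum_comm]
    have : ∀ y : ZMod L, ∑ x : ZMod L, ∑ z : ZMod L, ∑ j ∈ Finset.range L, v j *
        (if x = 0 ∧ y = 0 ∧ z = 0 then 0 else ph (an x) (mu L j + be y + be z)) =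
        ∑ j ∈ Finset.range L, ∑ z : ZMod L, ∑ x : ZMod L, v j *
        (if x = 0 ∧ y = 0 ∧ z = 0 then 0 else ph (an x) (mu L j + be y + be z)) := by
      intro y
      rw [Finset.sum_comm]
      simp only [Finset.sum_comm (s := (Finset.univ : Finset (ZMod L))) (t := Finset.range L)]
    simp only [this]
    rw [Finset.sum_comm]
  rw [e1]
  have e4 : ∀ j ∈ Finset.range L, |v j * ∑ y : ZMod L, ∑ z : ZMod L, Is j y z| ≤
      2 / L * ((1177 + KK) * (L : ℝ) ^ 2 * (wt j * KK ^ 2)) := by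
    intro j hj
    rw [abs_mul, abs_of_nonneg (hv0 j)]
    refine mul_le_mul (hv j) ?_ (abs_nonneg _) (by positivity)
    have e5 : ∀ y : ZMod L, |∑ z : ZMod L, Is j y z| ≤
        (1177 + KK) * (L : ℝ) ^ 2 * (wt j * wt y.valMinAbs * KK) := by
      intro y
      refine (Finset.abs_sum_le_sum_abs _ _).trans ?_
      refine (Finset.sum_le_sum fun z _ => Is_bound hT (Finset.mem_range.1 hj) y z).trans ?_
      have e6 : ∀ z : ZMod L, (1177 + KK) * (L : ℝ) ^ 2 * (wt j * wt y.valMinAbs * wt z.valMinAbs) =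
          ((1177 + KK) * (L : ℝ) ^ 2 * (wt j * wt y.valMinAbs)) * wt z.valMinAbs := fun z => by ring
      simp only [e6]
      rw [← Finset.mul_sum]
      have e7 := sum_inj_le (Finset.univ : Finset (ZMod L)) (fun x => x.valMinAbs) ZMod.injective_valMinAbs
      have e8 : 0 ≤ (1177 + KK) * (L : ℝ) ^ 2 * (wt j * wt y.valMinAbs) :=
        mul_nonneg (mul_nonneg (by linarith) (by positivity)) (mul_pos (wt_pos _) (wt_pos _)).le
      calc _ ≤ ((1177 + KK) * (L : ℝ) ^ 2 * (wt j * wt y.valMinAbs)) * KK := mul_le_mul_of_nonneg_left e7 e8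
        _ = _ := by ring
    refine (Finset.abs_sum_le_sum_abs _ _).trans ((Finset.sum_le_sum fun y _ => e5 y).trans ?_)
    have e6 : ∀ y : ZMod L, (1177 + KK) * (L : ℝ) ^ 2 * (wt j * wt y.valMinAbs * KK) =
        ((1177 + KK) * (L : ℝ) ^ 2 * (wt j * KK)) * wt y.valMinAbs := fun y => by ring
    simp only [e6]
    rw [← Finset.mul_sum]
    have e7 := sum_inj_le (Finset.univ : Finset (ZMod L)) (fun x => x.valMinAbs) ZMod.injective_valMinAbs
    have e8 : 0 ≤ (1177 + KK) * (L : ℝ) ^ 2 * (wt j * KK) :=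
      mul_nonneg (mul_nonneg (by linarith) (by positivity)) (mul_nonneg (wt_pos _).le (by linarith))
    calc _ ≤ ((1177 + KK) * (L : ℝ) ^ 2 * (wt j * KK)) * KK := mul_le_mul_of_nonneg_left e7 e8
      _ = _ := by ring
  refine (Finset.abs_sum_le_sum_abs _ _).trans ((Finset.sum_le_sum e4).trans ?_)
  have e6 : ∀ j : ℕ, 2 / (L : ℝ) * ((1177 + KK) * (L : ℝ) ^ 2 * (wt j * KK ^ 2)) =
      (2 * (1177 + KK) * L * KK ^ 2) * wt j := by
    intro j
    field_simp
  simp only [e6]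
  rw [← Finset.mul_sum]
  have e7 := sum_inj_le (Finset.range L) (fun j : ℕ => (j : ℤ)) Nat.cast_injective
  have e8 : 0 ≤ 2 * (1177 + KK) * L * KK ^ 2 := by positivity
  calc _ ≤ (2 * (1177 + KK) * L * KK ^ 2) * KK := mul_le_mul_of_nonneg_left e7 e8
    _ = _ := by ring

theorem af_gi : S_GI := by
  intro hT hS hE
  obtain ⟨c, C, -, -, hEN⟩ := hE
  refine ⟨2 * (1177 + KK) * KK ^ 3, ?_⟩
  intro L _ hL t ht
  have hL1 : 1 ≤ L := by omega
  have hL' : (0 : ℝ) < L := by exact_mod_cast hL1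
  have hwh : ∀ k : Sp L, wh2 k = be (k 0) + be (k 1) + be (k 2) := by
    intro k
    unfold wh2
    rw [Fin.sum_univ_three]
    rfl
  have hden : ∀ (k : Sp L) (j : ℕ), mu L j + wh2 k = mu L j + be (k 1) + be (k 2) + 2 -
      2 * Real.cos (an (k 0)) := by
    intro k j
    rw [hwh]
    have : be (k 0) = 2 - 2 * Real.cos (an (k 0)) := rfl
    rw [this]
    ring
  have key : ∀ (v : ℕ → ℝ) (g1 g2 : Sp L → ℝ),
      (∀ k : Sp L, k ≠ 0 → g1 k = ∑ j ∈ Finset.range L, v j / (mu L j + wh2 k)) →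
      (∀ k : Sp L, k ≠ 0 → g2 k = ∑ j ∈ Finset.range L, v j / (mu L j + wh2 k) ^ 2) →
      ∑ k ∈ Finset.univ.filter (fun k : Sp L => k ≠ 0), (2 * Real.cos (ang k 0) * g1 k -
        4 * Real.sin (ang k 0) ^ 2 * g2 k) =
      ∑ k ∈ Finset.univ.filter (fun k : Sp L => k ≠ 0), ∑ j ∈ Finset.range L,
        v j * ph (an (k 0)) (mu L j + be (k 1) + be (k 2)) := by
    intro v g1 g2 h1 h2
    refine Finset.sum_congr rfl fun k hk => ?_
    have hk' : k ≠ 0 := (Finset.mem_filter.1 hk).2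
    rw [h1 k hk', h2 k hk', Finset.mul_sum, Finset.mul_sum, ← Finset.sum_sub_distrib]
    refine Finset.sum_congr rfl fun j _ => ?_
    rw [hden k j]
    have : ang k 0 = an (k 0) := rfl
    rw [this]
    unfold ph
    ring
  constructor
  · rw [key (fun j => 2 / (L : ℝ) * Real.sin (Real.pi * j * t / L) ^ 2)
      (fun k => GD L (en k) t t) (fun k => ∑ s ∈ Finset.range L, GD L (en k) t s ^ 2)]
    · refine total_bound hT _ (fun j => by positivity) (fun j => ?_)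
      have h1 : Real.sin (Real.pi * j * t / L) ^ 2 ≤ 1 := Real.sin_sq_le_one _
      calc 2 / (L : ℝ) * Real.sin (Real.pi * j * t / L) ^ 2 ≤ 2 / L * 1 := by gcongr
        _ = 2 / L := mul_one _
    · intro k hk
      obtain ⟨h1, -, -, h2, -⟩ := hEN L hL k hk
      rw [(hS L hL (en k) h1).1 t ht, h2]
      rfl
    · intro k hk
      obtain ⟨h1, -, -, h2, -⟩ := hEN L hL k hk
      show ∑ s ∈ Finset.range L, GD L (en k) t s ^ 2 = _
      rw [(hS L hL (en k) h1).2.1 t ht, h2]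
      rfl
  · rw [key (fun j => (if j = 0 then 1 else 2) / (L : ℝ) * Real.cos (Real.pi * j * (t + 1 / 2) / L) ^ 2)
      (fun k => GN L (en k) t t) (fun k => ∑ s ∈ Finset.range L, GN L (en k) t s ^ 2)]
    · refine total_bound hT _ (fun j => ?_) (fun j => ?_)
      · split_ifs <;> positivity
      · have h1 : Real.cos (Real.pi * j * (t + 1 / 2) / L) ^ 2 ≤ 1 := Real.cos_sq_le_one _
        have h2 : (if j = 0 then 1 else 2 : ℝ) ≤ 2 := by split_ifs <;> norm_num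
        have h3 : (0 : ℝ) ≤ (if j = 0 then 1 else 2 : ℝ) := by split_ifs <;> norm_num
        calc (if j = 0 then 1 else 2) / (L : ℝ) * Real.cos (Real.pi * j * (t + 1 / 2) / L) ^ 2
            ≤ 2 / L * 1 := by gcongr
          _ = 2 / L := mul_one _
    · intro k hk
      obtain ⟨h1, -, -, h2, -⟩ := hEN L hL k hk
      rw [(hS L hL (en k) h1).2.2.1 t ht, h2]
      rfl
    · intro k hk
      obtain ⟨h1, -, -, h2, -⟩ := hEN L hL k hk
      show ∑ s ∈ Finset.range L, GN L (en k) t s ^ 2 = _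
      rw [(hS L hL (en k) h1).2.2.2 t ht, h2]
      rfl

end Pool.Agent.Y48.AF
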